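import Pool.Agent.H84.S2.TgB
import Pool.Agent.H3.S2.TgQ
import Pool.Agent.H2.SF.GNZ
import Pool.Agent.H62.HIL.Eig

/-!
# MP_70ba79_ag, board s2l_modules: row B_GNQ (divisibility of the determinant of a family of curves
at a point of the nodal curve `G = 0` where the form `Q` does not vanish)
-/

set_option autoImplicit false

namespace Pool.Agent.H46.S2

open MvPolynomial SC
open Pool.Agent.H27.LV (ge deg poleOrder canDeg DegreeBound)
open Pool.Agent.H84.SM (cr dt dp)
open Pool.Agent.H84.SL (pd)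
open Pool.Agent.H3.SF (Itg Bb BB Hm eu grd hes Sfc Crd Crf Prm)
open Pool.Agent.H84.SF
open Pool.Agent.H3.S2
open Pool.Agent.H84.S2
open Pool.Agent.H2.SF (exists_cw key int_val proj_ne)

theorem pf_GNQ (hPHI : Pool.Agent.H17.SD.T_PHI) (hHIE : T_HIE) (hCQB : Pool.Agent.H3.S2.T_CQB) :
    T_GNQ := by
  intro k F σ _ _ _ _ _ _ X u θ dd J δ j0 c0 c hCn hS m GP hm hG dq Q0 hQh hQd L M _ _ _ _ _ _ Δ P
    c1 a hc1 hP0 hP hGP hQ0
  have : CharZero F := charZero_of_injective_algebraMap (algebraMap k F).injective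
  have hGitg : Itg k u (aeval X GP) := by
    obtain ⟨XB, hXB⟩ : ∃ XB : σ → Bb k u, ∀ s, (XB s : F) = X s :=
      ⟨fun s => ⟨X s, hS.prj.Xint s⟩, fun _ => rfl⟩
    have h1 := comp_aeval_apply (f := XB) (Bb k u).val GP
    have h2 : (fun s => (Bb k u).val (XB s)) = X := funext hXB
    rw [h2] at h1
    rw [← h1]
    exact (aeval XB GP).2
  have hGhom : Hm k (eu u dd) m (aeval X GP) :=
    Pool.Agent.H62.HIL.hm_aeval (fun i => by
      unfold Hm
      rw [hS.prj.Xeu i]
      push_cast
      rw [one_mul]) hG.hom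
  obtain ⟨mp, hmp⟩ : ∃ mp : Polynomial L →ₐ[k] Polynomial M,
      ∀ A, mp A = A.map (algebraMap L M) :=
    ⟨Polynomial.mapAlgHom (IsScalarTower.toAlgHom k L M), fun A => rfl⟩
  let K : Type := FractionRing (Polynomial M)
  let ψ : Polynomial M →ₐ[k] K := IsScalarTower.toAlgHom k (Polynomial M) K
  have hψ : ∀ A, ψ A = algebraMap (Polynomial M) K A := fun A => rfl
  have hinj : Function.Injective ψ := IsFractionRing.injective (Polynomial M) K
  obtain ⟨Q, hQ⟩ : ∃ Q : Fin 3 → Polynomial M, ∀ l, Q l = mp (lin c P l) := ⟨_, fun _ => rfl⟩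
  obtain ⟨z, hz⟩ : ∃ z : σ → K, ∀ s, z s = ψ (mp (P s)) := ⟨_, fun _ => rfl⟩
  have hzf : ∀ f : MvPolynomial σ k, aeval z f = ψ (mp (aeval P f)) := by
    intro f
    have a1 := comp_aeval_apply (f := P) (ψ.comp mp) f
    have a2 : z = fun s => (ψ.comp mp) (P s) := funext hz
    rw [a2, ← a1]
    rfl
  have hzl : ∀ l, ∑ s, c l s • z s = ψ (Q l) := by
    intro l
    rw [hQ]
    simp only [lin, map_sum, map_smul, hz]
  have hlJ : ∀ f : MvPolynomial (Fin 3) k, aeval (fun l => ∑ s, c l s • z s) f = ψ (aeval Q f) := by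
    intro f
    have a1 := comp_aeval_apply (f := Q) ψ f
    rw [a1]
    congr 2
    funext l
    exact hzl l
  have hQf : ∀ f : MvPolynomial (Fin 3) k, mp (aeval (lin c P) f) = aeval Q f := by
    intro f
    have a1 := comp_aeval_apply (f := lin c P) mp f
    rw [a1]
    congr 2
    funext l
    exact (hQ l).symm
  obtain ⟨jQ, hjQ⟩ : ∃ jQ : Polynomial M, jQ = aeval Q J := ⟨_, rfl⟩
  obtain ⟨sQ, hsQ⟩ : ∃ sQ : Polynomial M, sQ = mp (aeval P Q0) := ⟨_, rfl⟩
  have hsX : ¬ Polynomial.X ∣ sQ := by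
    rw [Polynomial.X_dvd_iff, hsQ, hmp, Polynomial.coeff_map, map_eq_zero]
    exact hQ0
  have hgoal : ∀ q : Fin 3 → Polynomial M, (∀ l, q l = pd (fun b => Δ (algebraMap L M b)) (lin c P l)) →
      ∀ w : Fin 3 → Polynomial M, (∀ l, w l = Polynomial.X * Polynomial.derivative (Q l)) →
      Polynomial.X ^ a ∣ jQ * dt Q q w := by
    intro q hq w hw
    by_cases hj0 : jQ = 0
    · rw [hj0, zero_mul]
      exact dvd_zero _
    suffices hsuff : Polynomial.X ^ a ∣ jQ * sQ * dt Q q w by
      refine Polynomial.prime_X.pow_dvd_of_dvd_mul_left a hsX ?_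
      have e0 : sQ * (jQ * dt Q q w) = jQ * sQ * dt Q q w := by ring
      rw [e0]
      exact hsuff
    have hJz : aeval (fun l => ∑ s, c l s • z s) J ≠ 0 := by
      rw [hlJ, ← hjQ]
      intro h
      exact hj0 (hinj (h.trans (map_zero ψ).symm))
    obtain ⟨φ, hφ⟩ := hPHI k F σ K X u θ dd J hS.sfc.ind hS.prj z (fun f hf => by
      rw [hzf, hP f hf, map_zero, map_zero]) c hS.lin hJz
    -- the elements of the ring
    have hui : ∀ l, Itg k u (u l) := by
      intro l
      have := (Bb k u).sum_mem (t := Finset.univ) (f := fun s => c l s • X s)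
        (fun s _ => (Bb k u).smul_mem (hS.prj.Xint s) _)
      rw [← hS.lin l] at this
      exact this
    obtain ⟨XB, hXB⟩ : ∃ XB : σ → Bb k u, ∀ s, (XB s : F) = X s :=
      ⟨fun s => ⟨X s, hS.prj.Xint s⟩, fun _ => rfl⟩
    obtain ⟨uB, huB⟩ : ∃ uB : Fin 3 → Bb k u, ∀ l, (uB l : F) = u l :=
      ⟨fun l => ⟨u l, hui l⟩, fun _ => rfl⟩
    have hφX : ∀ s, φ (XB s) = z s := fun s => hφ s (XB s) (hXB s)
    have hφu : ∀ l, φ (uB l) = ψ (Q l) := by
      intro l
      have h1 : uB l = ∑ s, c l s • XB s := by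
        apply Subtype.ext
        rw [huB, hS.lin l, AddSubmonoidClass.coe_finsetSum]
        refine Finset.sum_congr rfl fun s _ => ?_
        rw [SetLike.val_smul, hXB]
      rw [h1, map_sum, ← hzl]
      refine Finset.sum_congr rfl fun s _ => ?_
      rw [map_smul, hφX]
    have hval : ∀ b : Bb k u, ∃ p : Polynomial M, ψ p = φ b :=
      int_val u φ uB huB Q hφu
    choose ρ hρ using hval
    have hρa : ∀ x y, ρ (x + y) = ρ x + ρ y := fun x y => hinj (by
      rw [hρ, map_add, map_add, hρ, hρ])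
    have hρm : ∀ x y, ρ (x * y) = ρ x * ρ y := fun x y => hinj (by
      rw [hρ, map_mul, map_mul, hρ, hρ])
    have hρu : ∀ l, ρ (uB l) = Q l := fun l => hinj (by rw [hρ, hφu])
    obtain ⟨GB, hGB⟩ : ∃ GB : Bb k u, (GB : F) = aeval X GP := ⟨⟨_, hGitg⟩, rfl⟩
    have hφG : ρ GB = mp (aeval P GP) := by
      have h1 : GB = aeval XB GP := by
        apply Subtype.ext
        have := comp_aeval_apply (f := XB) (Bb k u).val GP
        rw [Subalgebra.coe_val] at this
        rw [this, hGB]
        congr 2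
        funext s
        exact (hXB s).symm
      apply hinj
      rw [hρ, h1, comp_aeval_apply, ← hzf]
      congr 2
      funext s
      exact hφX s
    obtain ⟨jB, hjB⟩ : ∃ jB : Bb k u, jB = aeval uB J := ⟨_, rfl⟩
    have hjBF : (jB : F) = aeval u J := by
      have := comp_aeval_apply (f := uB) (Bb k u).val J
      rw [Subalgebra.coe_val, ← hjB] at this
      rw [this]
      congr 2
      funext l
      exact huB l
    obtain ⟨sB, hsB⟩ : ∃ sB : Bb k u, sB = aeval XB Q0 := ⟨_, rfl⟩
    have hsBF : (sB : F) = aeval X Q0 := by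
      have := comp_aeval_apply (f := XB) (Bb k u).val Q0
      rw [Subalgebra.coe_val, ← hsB] at this
      rw [this]
      congr 2
      funext s
      exact hXB s
    have hρs : ρ sB = sQ := by
      apply hinj
      rw [hρ, hsB, comp_aeval_apply, hsQ, ← hzf]
      congr 2
      funext s
      exact hφX s
    have hρj : ρ jB = jQ := by
      apply hinj
      rw [hρ, hjB, comp_aeval_apply, hjQ, comp_aeval_apply]
      congr 2
      funext l
      exact hφu l
    obtain ⟨bB, hbB⟩ : ∃ bB : Fin 3 → Bb k u, ∀ l, (bB l : F) = aeval u J * dd l (aeval X GP) :=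
      ⟨fun l => ⟨_, hS.sfc.Jd l _ hGitg⟩, fun _ => rfl⟩
    have hρG : ρ GB = Polynomial.C (algebraMap L M c1) * Polynomial.X ^ a := by
      rw [hφG, hGP, hmp]
      simp
    -- chain rule
    have hchr : ∀ D : Derivation k (Polynomial M) (Polynomial M),
        jQ * D (Polynomial.C (algebraMap L M c1) * Polynomial.X ^ a) =
          ∑ l, ρ (bB l) * D (Q l) := by
      intro D
      obtain ⟨D', hD'⟩ := Pool.Agent.H91.SFD.ext_der (L := K)
        ((Algebra.linearMap (Polynomial M) K).compDer D)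
      have h1 := hS.sfc.chr K φ D' GB jB bB uB hjBF (fun l => by rw [hbB, hGB]) huB (by
        rw [← hρ, hρj]
        intro h
        exact hj0 (hinj (h.trans (map_zero ψ).symm)))
      have h2 : ∀ A : Polynomial M, D' (ψ A) = ψ (D A) := fun A => hD' A
      apply hinj
      rw [map_mul, map_sum, ← hρj, ← hρG, ← h2, hρ, hρ, h1]
      refine Finset.sum_congr rfl fun l _ => ?_
      rw [map_mul, hρ, ← h2, ← hρu, hρ]
    obtain ⟨n, hcert⟩ := hCQB k F σ X u dd m GP hCn.trd hCn.hmg hS.sfc.ind hS.prj.ulin hS.prj.Xint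
      hS.sfc.du hS.sfc.comm hS.prj.Xeu hm hG.hom dq Q0 hQh hQd
    obtain ⟨i0, hi0⟩ := proj_ne hHIE X u dd hS.sfc.du hS.prj.Xint hS.prj.Xeu c hS.lin P hP0 hP
    have hi0' : ¬ Polynomial.X ∣ Q i0 := by
      rw [Polynomial.X_dvd_iff, hQ, hmp, Polynomial.coeff_map, map_eq_zero]
      rwa [Polynomial.X_dvd_iff] at hi0
    obtain ⟨e, he, hce⟩ := hcert i0
    refine key Q q w (fun l => ρ (bB l)) (jQ * sQ) a n ?_ ?_ ?_ i0 ?_ hi0'
    · have h1 : ∑ l, bB l * uB l = jB * ((m : Bb k u) * GB) := by
        apply Subtype.ext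
        rw [AddSubmonoidClass.coe_finsetSum]
        have h2 : eu u dd (aeval X GP) = ((m : ℤ) : F) * aeval X GP := hGhom
        have h3 : eu u dd (aeval X GP) = ∑ l, u l * dd l (aeval X GP) := by
          unfold eu
          rw [Fin.sum_univ_three, Fin.sum_univ_three]
          simp only [Derivation.add_apply, Derivation.smul_apply, smul_eq_mul]
        have h4 : ∀ l, ((bB l * uB l : Bb k u) : F) =
            aeval u J * (u l * dd l (aeval X GP)) := by
          intro l
          rw [MulMemClass.coe_mul, hbB, huB]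
          ring
        rw [Finset.sum_congr rfl fun l _ => h4 l, ← Finset.mul_sum, ← h3, h2, MulMemClass.coe_mul,
          MulMemClass.coe_mul, hjBF, hGB]
        simp
      have h2 : ∑ l, ρ (bB l) * Q l = jQ * ((m : Polynomial M) * ρ GB) := by
        apply hinj
        rw [map_sum, map_mul, map_mul, ← hρj, hρ, hρ, map_natCast, ← map_natCast φ, ← map_mul,
          ← map_mul, ← h1, map_sum]
        refine Finset.sum_congr rfl fun l _ => ?_
        rw [map_mul, map_mul, hρ, hφu]
      show Polynomial.X ^ a ∣ ∑ l, ρ (bB l) * Q l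
      rw [h2, hρG]
      exact ⟨jQ * ((m : Polynomial M) * Polynomial.C (algebraMap L M c1)), by ring⟩
    · obtain ⟨D, hD⟩ := exists_cw Δ
      have h1 : ∀ l, D (Q l) = q l := by
        intro l
        ext i
        rw [hD, hQ, hmp, hq, Polynomial.coeff_map, Pool.Agent.H13.SL.pd_coeff _ (by simp)]
      have h2 : D (Polynomial.C (algebraMap L M c1) * Polynomial.X ^ a) =
          Polynomial.C (Δ (algebraMap L M c1)) * Polynomial.X ^ a := by
        ext i
        rw [hD, Polynomial.coeff_C_mul_X_pow, Polynomial.coeff_C_mul_X_pow]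
        split_ifs
        · rfl
        · exact map_zero Δ
      have h3 := hchr D
      rw [h2] at h3
      show Polynomial.X ^ a ∣ ∑ l, ρ (bB l) * q l
      have h4 : ∑ l, ρ (bB l) * q l = ∑ l, ρ (bB l) * D (Q l) :=
        Finset.sum_congr rfl fun l _ => by rw [h1]
      rw [h4, ← h3]
      exact ⟨jQ * Polynomial.C (Δ (algebraMap L M c1)), by ring⟩
    · let D : Derivation k (Polynomial M) (Polynomial M) :=
        (Polynomial.X : Polynomial M) • (Polynomial.derivative' (R := M)).restrictScalars k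
      have hD : ∀ A, D A = Polynomial.X * Polynomial.derivative A := fun A => rfl
      have h3 := hchr D
      show Polynomial.X ^ a ∣ ∑ l, ρ (bB l) * w l
      have h4 : ∑ l, ρ (bB l) * w l = ∑ l, ρ (bB l) * D (Q l) :=
        Finset.sum_congr rfl fun l _ => by rw [hw, hD]
      rw [h4, ← h3, hD]
      rcases Nat.eq_zero_or_pos a with rfl | ha
      · rw [pow_zero]
        exact one_dvd _
      obtain ⟨b, rfl⟩ : ∃ b, a = b + 1 := ⟨a - 1, by omega⟩
      rw [Polynomial.derivative_C_mul_X_pow, Nat.add_sub_cancel]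
      exact ⟨jQ * Polynomial.C (algebraMap L M c1 * (b + 1 : ℕ)), by ring⟩
    · obtain ⟨eB, heB⟩ : ∃ eB : Fin 3 → Bb k u, ∀ l, (eB l : F) = e l :=
        ⟨fun l => ⟨e l, (he l).2.1⟩, fun _ => rfl⟩
      refine ⟨fun l => ρ (eB l), ?_⟩
      have h1 : jB * sB * uB i0 ^ n = ∑ l, eB l * bB l := by
        apply Subtype.ext
        rw [AddSubmonoidClass.coe_finsetSum, MulMemClass.coe_mul, MulMemClass.coe_mul,
          SubmonoidClass.coe_pow, hjBF, hsBF, huB, mul_assoc, hce, Finset.mul_sum]
        refine Finset.sum_congr rfl fun l _ => ?_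
        rw [MulMemClass.coe_mul, heB, hbB]
        ring
      apply hinj
      rw [map_mul, map_mul, map_pow, map_sum, ← hρj, ← hρs, hρ, hρ, ← hφu, ← map_pow, ← map_mul,
        ← map_mul, h1, map_sum]
      refine Finset.sum_congr rfl fun l _ => ?_
      rw [map_mul, map_mul, hρ, hρ]
  have hfin := hgoal (fun l => pd (fun b => Δ (algebraMap L M b)) (lin c P l)) (fun _ => rfl)
    (fun l => Polynomial.X * Polynomial.derivative (Q l)) (fun _ => rfl)
  have e1 : (fun i => (lin c P i).map (algebraMap L M)) = Q := by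
    funext l
    rw [hQ, hmp]
  have e2 : (fun i => Polynomial.X * (Polynomial.derivative (lin c P i)).map (algebraMap L M)) =
      fun l => Polynomial.X * Polynomial.derivative (Q l) := by
    funext l
    rw [hQ, hmp, Polynomial.derivative_map]
  rw [e1, e2, ← hmp, hQf, ← hjQ]
  exact hfin

end Pool.Agent.H46.S2
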